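import Pool.Agent.P.MP_164ed8_gt.VolE

/-! The unit ball with the potential -log(1 - |z|^2): a check of the normalisations. -/

namespace Pool.Agent.P.MP_e5c6eb_gt.Ball

open Set Filter Topology MeasureTheory Matrix Complex Pool.Agent.Lib.Kahler
  Pool.Agent.P.MP_164ed8_gt.Q1 Pool.Agent.P.MP_164ed8_gt.Vol
open scoped ComplexOrder ContDiff Pointwise

variable {n : ℕ} {X : Set (Fin n → ℂ)} {h : (Fin n → ℂ) → Matrix (Fin n) (Fin n) ℂ} {c : ℝ}

lemma dz_smul (c : ℝ) (f : (Fin n → ℂ) → ℂ) (j : Fin n) (z : Fin n → ℂ) :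
    dz j (fun w => c * f w) z = c * dz j f z := by
  have e : fderiv ℝ (fun w => c * f w) z = c • fderiv ℝ f z :=
    congrFun (fderiv_const_smul_field (𝕜 := ℝ) (f := f) c) z
  simp only [dz, e, _root_.smul_apply, real_smul]
  ring

lemma dzbar_smul (c : ℝ) (f : (Fin n → ℂ) → ℂ) (j : Fin n) (z : Fin n → ℂ) :
    dzbar j (fun w => c * f w) z = c * dzbar j f z := by
  have e : fderiv ℝ (fun w => c * f w) z = c • fderiv ℝ f z :=
    congrFun (fderiv_const_smul_field (𝕜 := ℝ) (f := f) c) z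
  simp only [dzbar, e, _root_.smul_apply, real_smul]
  ring

lemma kahler_smul (hc : 0 < c) (hh : IsKahler X h) : IsKahler X fun z => (c : ℂ) • h z :=
  ⟨fun j k => contDiffOn_const.mul (hh.1 j k),
    fun z hz => (hh.2.1 z hz).smul (by exact_mod_cast hc), fun z hz j k l => by
      simp only [Matrix.smul_apply, smul_eq_mul, dz_smul, hh.2.2 z hz j k l]⟩

lemma normSq_scale (z v : Fin n → ℂ) :
    Lib.Kahler.normSq (fun z => (c : ℂ) • h z) z v = c * Lib.Kahler.normSq h z v := by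
  simp only [Lib.Kahler.normSq, Matrix.smul_apply, smul_eq_mul, mul_assoc, ← Finset.mul_sum,
    re_ofReal_mul]

lemma det_scale (z : Fin n → ℂ) : ((c : ℂ) • h z).det.re = c ^ n * (h z).det.re := by
  rw [det_smul, Fintype.card_fin, ← ofReal_pow, re_ofReal_mul]

lemma ricci_scale (hc : 0 < c) (hX : IsOpen X) (hh : IsKahler X h) {z : Fin n → ℂ} (hz : z ∈ X)
    (v : Fin n → ℂ) : ricci (fun z => (c : ℂ) • h z) z v = ricci h z v := by
  have e : ∀ k, (dzbar k fun w => (Real.log ((c : ℂ) • h w).det.re : ℂ)) =ᶠ[𝓝 z]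
      dzbar k fun w => (Real.log (h w).det.re : ℂ) := fun k => by
    filter_upwards [hX.mem_nhds hz] with y hy
    have e1 : (fun w => (Real.log ((c : ℂ) • h w).det.re : ℂ)) =ᶠ[𝓝 y]
        fun w => (Real.log (c ^ n) : ℂ) + (Real.log (h w).det.re : ℂ) := by
      filter_upwards [hX.mem_nhds hy] with w hw
      rw [det_scale, Real.log_mul (pow_pos hc n).ne' (det_re_pos (hh.2.1 w hw)).ne', ofReal_add]
    rw [dzbar_congr e1, dzbar, dzbar, fderiv_const_add]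
  simp only [ricci, dz_congr (e _)]

lemma gradSq_scale (hc : 0 < c) {z : Fin n → ℂ} (hz : (h z).PosDef) (φ : (Fin n → ℂ) → ℝ) :
    gradSq (fun z => (c : ℂ) • h z) φ z = c⁻¹ * gradSq h φ z := by
  have hc' : (c : ℂ) ≠ 0 := by exact_mod_cast hc.ne'
  have e : ((c : ℂ) • h z)⁻¹ = ((c⁻¹ : ℝ) : ℂ) • (h z)⁻¹ := inv_eq_right_inv (by
    rw [Matrix.smul_mul, Matrix.mul_smul, smul_smul, ofReal_inv, mul_inv_cancel₀ hc', one_smul,
      mul_nonsing_inv _ ((isUnit_iff_isUnit_det _).1 hz.isUnit)])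
  simp only [gradSq, e, Matrix.smul_apply, smul_eq_mul, mul_left_comm _ ((c⁻¹ : ℝ) : ℂ),
    mul_assoc ((c⁻¹ : ℝ) : ℂ), ← Finset.mul_sum, re_ofReal_mul]
  ring

lemma lambda0_scale (hc : 0 < c) (hX : IsOpen X) (hh : IsKahler X h) :
    lambda0 X (fun z => (c : ℂ) • h z) = c⁻¹ * lambda0 X h := by
  have e : ∀ φ : (Fin n → ℂ) → ℝ,
      (∫ z in X, gradSq (fun z => (c : ℂ) • h z) φ z * ((c : ℂ) • h z).det.re) /
        (∫ z in X, φ z ^ 2 * ((c : ℂ) • h z).det.re) =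
      c⁻¹ • ((∫ z in X, gradSq h φ z * (h z).det.re) / ∫ z in X, φ z ^ 2 * (h z).det.re) := by
    intro φ
    have e1 : ∫ z in X, gradSq (fun z => (c : ℂ) • h z) φ z * ((c : ℂ) • h z).det.re =
        c ^ n * (c⁻¹ * ∫ z in X, gradSq h φ z * (h z).det.re) := by
      rw [← integral_const_mul, ← integral_const_mul]
      refine setIntegral_congr_fun hX.measurableSet fun z hz => ?_
      simp only [gradSq_scale hc (hh.2.1 z hz), det_scale]
      ring
    have e2 : ∫ z in X, φ z ^ 2 * ((c : ℂ) • h z).det.re =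
        c ^ n * ∫ z in X, φ z ^ 2 * (h z).det.re := by
      rw [← integral_const_mul]
      simp only [det_scale, mul_left_comm]
    rw [e1, e2, mul_div_mul_left _ _ (pow_pos hc n).ne', smul_eq_mul, mul_div_assoc]
  rw [lambda0, lambda0, ← smul_eq_mul, ← Real.sInf_smul_of_nonneg (inv_pos.2 hc).le]
  congr 1
  ext r
  simp only [e, mem_setOf_eq, mem_smul_set]
  exact ⟨fun ⟨φ, a1, a2, a3, a4, a5⟩ => ⟨_, ⟨φ, a1, a2, a3, a4, rfl⟩, a5.symm⟩,
    fun ⟨_, ⟨φ, a1, a2, a3, a4, a5⟩, a6⟩ => ⟨φ, a1, a2, a3, a4, by rw [← a6, a5]⟩⟩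

lemma rdist_scale (hc : 0 < c) (p q : Fin n → ℂ) :
    rdist X (fun z => (c : ℂ) • h z) p q = ENNReal.ofReal √c * rdist X h p q := by
  have h0 : ENNReal.ofReal √c ≠ 0 := by simpa using hc
  simp only [rdist, normSq_scale, Real.sqrt_mul hc.le, ENNReal.ofReal_mul (Real.sqrt_nonneg c),
    lintegral_const_mul' _ _ ENNReal.ofReal_ne_top,
    ENNReal.mul_iInf_of_ne h0 ENNReal.ofReal_ne_top]

lemma complete_scale (hc : 0 < c) (hh : IsCompleteMetric X h) :
    IsCompleteMetric X fun z => (c : ℂ) • h z := by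
  have h0 : ENNReal.ofReal √c ≠ 0 := by simpa using hc
  intro u hu hC
  obtain ⟨p, hp, ht⟩ := hh u hu fun ε hε => by
    obtain ⟨N, hN⟩ := hC (ENNReal.ofReal √c * ε) (ENNReal.mul_pos h0 hε.ne')
    refine ⟨N, fun m hm m' hm' => ?_⟩
    have := hN m hm m' hm'
    rw [rdist_scale hc] at this
    exact lt_of_mul_lt_mul_left' this
  refine ⟨p, hp, ?_⟩
  simp only [rdist_scale hc]
  simpa using ENNReal.Tendsto.const_mul ht (Or.inr ENNReal.ofReal_ne_top)

theorem ball (hn : 1 ≤ n) (B : Set (Fin n → ℂ)) (hB : B = {z | ∑ j, ‖z j‖ ^ 2 < 1})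
    (g : (Fin n → ℂ) → Matrix (Fin n) (Fin n) ℂ)
    (hg : ∀ z j k, g z j k =
      dz j (dzbar k fun w => ((-Real.log (1 - ∑ i, ‖w i‖ ^ 2) : ℝ) : ℂ)) z) :
    IsKahler B g ∧ IsCompleteMetric B g ∧ g 0 = 1 ∧
      (∀ z ∈ B, ∀ v, ricci g z v = -2 * ((n : ℝ) + 1) * Lib.Kahler.normSq g z v) ∧
      lambda0 B g = (n : ℝ) ^ 2 := by
  let e : Unit × Fin n ≃ Fin n := Equiv.punitProd _
  have hc : (0 : ℝ) < (2 * (n + 1) : ℝ)⁻¹ := by positivity
  have hc' : (n : ℂ) + 1 ≠ 0 := by exact_mod_cast Nat.succ_ne_zero n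
  obtain rfl : B = XB e := by
    rw [hB]
    ext z
    simp [XB, rh, e]
  obtain rfl : g = fun z => (((2 * (n + 1) : ℝ)⁻¹ : ℝ) : ℂ) • hess (pot e) z := by
    funext z
    ext j k
    have e1 : (fun w => (pot e w : ℂ)) = fun w : Fin n → ℂ => ((n + 1 : ℝ) : ℂ) *
        ((-Real.log (1 - ∑ i, ‖w i‖ ^ 2) : ℝ) : ℂ) := by
      funext w
      rw [← ofReal_mul]
      congr 1
      simp only [pot, rh, e, Finset.univ_unique, Finset.sum_singleton, Equiv.punitProd_apply]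
      ring
    have e2 := funext (dzbar_smul (n + 1) (fun w : Fin n → ℂ =>
      ((-Real.log (1 - ∑ i, ‖w i‖ ^ 2) : ℝ) : ℂ)) k)
    rw [hg, Matrix.smul_apply, hess, of_apply, e1, e2, dz_smul, smul_eq_mul]
    push_cast
    field_simp
  refine ⟨kahler_smul hc isKahler_pot, complete_scale hc complete_pot, ?_, fun z hz v => ?_, ?_⟩
  · ext j k
    simp only [Matrix.smul_apply, hess_pot (zero_mem e), Matrix.one_apply]
    simp [rh]
    field_simp
  · rw [ricci_scale hc (isOpen_XB e) isKahler_pot hz, normSq_scale, einstein_pot hz]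
    field_simp
  · rw [lambda0_scale hc (isOpen_XB e) isKahler_pot, le_antisymm (upper_pot isKahler_pot
      (fun z hz v => (einstein_pot hz v).ge) proper_pot fun s h0 hs => integrable_pot hn h0.le hs)
      lower_pot]
    field_simp

/-- The orbit map of a free and properly discontinuous group of homeomorphisms is a covering. -/
theorem covering_of_group {E Y : Type} [TopologicalSpace E] [TopologicalSpace Y]
    [LocallyCompactSpace E] [T2Space E] (S : Set (E → E)) (one : (fun x => x) ∈ S)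
    (mul : ∀ f ∈ S, ∀ f' ∈ S, (fun x => f (f' x)) ∈ S)
    (inv : ∀ f ∈ S, ∃ f' ∈ S, ∀ x, f' (f x) = x ∧ f (f' x) = x)
    (cont : ∀ f ∈ S, ∀ U, IsOpen U → IsOpen (f ⁻¹' U))
    (free : ∀ f ∈ S, ∀ x, f x = x → ∀ y, f y = y)
    (disc : ∀ K, IsCompact K → ∃ (m : ℕ) (l : Fin m → E → E),
      ∀ f ∈ S, ∀ x ∈ K, f x ∈ K → ∃ i, f = l i)
    (q : E → Y) (onto : ∀ y, ∃ x, q x = y) (quot : ∀ U, IsOpen U ↔ IsOpen (q ⁻¹' U))
    (fib : ∀ x x', q x = q x' ↔ ∃ f ∈ S, f x = x') : IsCoveringMap q := by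
  let G : Subgroup (Equiv.Perm E) :=
    { carrier := {σ | ⇑σ ∈ S}
      one_mem' := one
      mul_mem' := fun {a b} ha hb => mul _ ha _ hb
      inv_mem' := fun {a} ha => by
        obtain ⟨f', h1, h2⟩ := inv _ ha
        have e : ⇑a⁻¹ = f' := funext fun x => by
          rw [Equiv.Perm.inv_def, Equiv.symm_apply_eq, (h2 x).2]
        change ⇑a⁻¹ ∈ S
        rwa [e] }
  have : ContinuousConstSMul G E := ⟨fun σ => continuous_def.2 (cont _ σ.2)⟩
  have : IsCancelSMul G E := isCancelSMul_iff_eq_one_of_smul_eq.2 fun σ x hx =>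
    Subtype.ext (Equiv.ext (free _ σ.2 x hx))
  have : ProperlyDiscontinuousSMul G E := ⟨fun {K L} hK hL => by
    obtain ⟨m, l, hl⟩ := disc _ (hK.union hL)
    refine Set.Finite.of_finite_image (f := fun σ : G => ⇑σ.1) ((Set.finite_range l).subset ?_)
      fun a _ b _ hab => Subtype.ext (Equiv.coe_inj.1 hab)
    rintro _ ⟨σ, ⟨_, ⟨x, hx, rfl⟩, hy⟩, rfl⟩
    obtain ⟨i, hi⟩ := hl _ σ.2 x (Or.inl hx) (Or.inr hy)
    exact ⟨i, hi.symm⟩⟩
  refine (((isQuotientMap_iff q).2 ⟨.of_isOpen_preimage_iff_isOpen fun U => (quot U).symm,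
    onto⟩).isQuotientCoveringMap_of_properlyDiscontinuousSMul
    (G := G) fun {x x'} => ?_).isCoveringMap
  rw [eq_comm, fib]
  refine ⟨fun ⟨f, hf, e⟩ => ?_, fun ⟨σ, e⟩ => ⟨_, σ.2, e⟩⟩
  obtain ⟨f', -, h2⟩ := inv f hf
  exact ⟨⟨⟨f, f', fun x => (h2 x).1, fun x => (h2 x).2⟩, hf⟩, e⟩

end Pool.Agent.P.MP_e5c6eb_gt.Ball
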