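import Pool.Agent.Lib.Kahler.Calc
import Pool.Agent.Lib.Kahler.Dist

namespace Pool.Agent.P.MP_e5c6eb_gt

open Set Filter Topology Complex Matrix Pool.Agent.Lib.Kahler
open scoped ComplexOrder ContDiff

variable {n : ℕ}

/-- the punctured ball -/
def XB (n : ℕ) : Set (Fin n → ℂ) := {z | 0 < uu z ∧ uu z < 1}

noncomputable def aa (u : ℝ) : ℝ := -1 / (u * Real.log u)
noncomputable def bb (u : ℝ) : ℝ := (1 + Real.log u) / (u * Real.log u) ^ 2

/-- the metric with potential `-log (-log |z|^2)` -/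
noncomputable def gB (z : Fin n → ℂ) : Matrix (Fin n) (Fin n) ℂ :=
  Matrix.of fun j k => (aa (uu z) : ℂ) * (if j = k then 1 else 0) +
    (bb (uu z) : ℂ) * ((starRingEnd ℂ) (z j) * z k)

lemma isOpen_XB : IsOpen (XB n) :=
  (isOpen_Ioo (a := (0 : ℝ)) (b := 1)).preimage (contDiff_uu (m := 0)).continuous

section
variable {u : ℝ} (h0 : 0 < u) (h1 : u < 1)
include h0 h1

lemma log_neg' : Real.log u < 0 := Real.log_neg h0 h1

lemma aa_pos : 0 < aa u := by
  have := log_neg' h0 h1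
  exact div_pos_of_neg_of_neg (by norm_num) (mul_neg_of_pos_of_neg h0 this)

lemma aa_add : aa u + bb u * u = 1 / (u * Real.log u ^ 2) := by
  have := (log_neg' h0 h1).ne
  unfold aa bb
  field_simp
  ring

lemma hasDerivAt_aa : HasDerivAt aa (bb u) u := by
  have hl := (log_neg' h0 h1).ne
  have := (hasDerivAt_const u (-1 : ℝ)).fun_div
    ((hasDerivAt_id' u).fun_mul (Real.hasDerivAt_log h0.ne')) (mul_ne_zero h0.ne' hl)
  refine (show HasDerivAt aa _ u from this).congr_deriv ?_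
  unfold bb
  field_simp
  ring

lemma contDiffAt_aa : ContDiffAt ℝ ∞ aa u := by
  have hl := (log_neg' h0 h1).ne
  exact contDiffAt_const.div (contDiffAt_id.mul (Real.contDiffAt_log.2 h0.ne'))
    (mul_ne_zero h0.ne' hl)

lemma contDiffAt_bb : ContDiffAt ℝ ∞ bb u := by
  have hl := (log_neg' h0 h1).ne
  exact (contDiffAt_const.add (Real.contDiffAt_log.2 h0.ne')).div
    ((contDiffAt_id.mul (Real.contDiffAt_log.2 h0.ne')).pow 2)
    (pow_ne_zero 2 (mul_ne_zero h0.ne' hl))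

lemma one_le_aa : 1 ≤ aa u := by
  have hl := log_neg' h0 h1
  have h2 := Real.one_sub_inv_le_log_of_pos h0
  have h3 : u - 1 ≤ u * Real.log u := by
    have := mul_le_mul_of_nonneg_left h2 h0.le
    rwa [mul_sub, mul_inv_cancel₀ h0.ne', mul_one] at this
  unfold aa
  rw [le_div_iff_of_neg (mul_neg_of_pos_of_neg h0 hl)]
  linarith

lemma one_le_aa_add : 1 ≤ aa u + bb u * u := by
  have hl := log_neg' h0 h1
  rw [aa_add h0 h1, le_div_iff₀ (mul_pos h0 (sq_pos_of_neg hl)), one_mul]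
  set x := -Real.log u with hx
  have hu : u = Real.exp (-x) := by rw [hx, neg_neg, Real.exp_log h0]
  have h2 : x ≤ Real.exp (x / 2) := by
    have a := Real.add_one_le_exp (x / 2 - 1)
    have b : (2 : ℝ) ≤ Real.exp 1 := by have := Real.add_one_le_exp (1 : ℝ); linarith
    have c : Real.exp (x / 2) = Real.exp (x / 2 - 1) * Real.exp 1 := by
      rw [← Real.exp_add]; ring_nf
    have d : 0 < x := by linarith
    rw [c]
    nlinarith [Real.exp_pos (x / 2 - 1)]
  have h3 : x ^ 2 ≤ Real.exp x := by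
    have : Real.exp x = Real.exp (x / 2) ^ 2 := by rw [← Real.exp_nat_mul]; ring_nf
    rw [this]
    exact pow_le_pow_left₀ (by linarith) h2 2
  have h4 : Real.log u ^ 2 = x ^ 2 := by rw [hx]; ring
  rw [h4, hu, Real.exp_neg, inv_mul_le_iff₀ (Real.exp_pos x)]
  linarith

end

lemma quad_form (A B : ℝ) (z v : Fin n → ℂ) :
    ∑ j, ∑ k, ((A : ℂ) * (if j = k then 1 else 0) + (B : ℂ) * ((starRingEnd ℂ) (z j) * z k)) *
      v j * (starRingEnd ℂ) (v k) =
    ((A * uu v + B * ‖∑ j, (starRingEnd ℂ) (z j) * v j‖ ^ 2 : ℝ) : ℂ) := by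
  push_cast
  rw [← mul_conj', map_sum, Finset.sum_mul_sum, uu_coe, Finset.mul_sum, Finset.mul_sum,
    ← Finset.sum_add_distrib]
  refine Finset.sum_congr rfl fun j _ => ?_
  simp only [add_mul, Finset.sum_add_distrib, Finset.mul_sum]
  congr 1
  · rw [Finset.sum_eq_single j]
    · simp; ring
    · intro b _ hb; simp [hb.symm]
    · simp
  · exact Finset.sum_congr rfl fun k _ => by simp; ring

lemma normSq_gB (z v : Fin n → ℂ) : normSq gB z v =
    aa (uu z) * uu v + bb (uu z) * ‖∑ j, (starRingEnd ℂ) (z j) * v j‖ ^ 2 := by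
  simp only [Lib.Kahler.normSq, gB, Matrix.of_apply, quad_form, ofReal_re]

lemma uu_le_normSq {z : Fin n → ℂ} (hz : z ∈ XB n) (v : Fin n → ℂ) : uu v ≤ normSq gB z v := by
  rw [normSq_gB]
  have h1 := one_le_aa hz.1 hz.2
  have h2 := one_le_aa_add hz.1 hz.2
  have h3 := cs_uu z v
  have h4 := uu_nonneg v
  rcases le_total 0 (bb (uu z)) with hb | hb
  · nlinarith [mul_nonneg hb (sq_nonneg ‖∑ j, (starRingEnd ℂ) (z j) * v j‖)]
  · nlinarith [mul_le_mul_of_nonpos_left h3 hb]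

lemma posDef_gB {z : Fin n → ℂ} (hz : z ∈ XB n) : (gB z).PosDef := by
  rw [posDef_iff_dotProduct_mulVec]
  constructor
  · ext j k
    simp only [conjTranspose_apply, gB, Matrix.of_apply]
    by_cases h : j = k
    · subst h; simp [mul_comm]
    · simp [h, Ne.symm h, mul_comm]
  · intro x hx
    have e : star x ⬝ᵥ gB z *ᵥ x = (normSq gB z (star x) : ℝ) := by
      rw [normSq_gB, ← quad_form]
      simp only [dotProduct, mulVec, gB, Matrix.of_apply, Finset.mul_sum, Pi.star_apply,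
        RCLike.star_def, conj_conj]
      exact Finset.sum_congr rfl fun j _ => Finset.sum_congr rfl fun k _ => by ring
    rw [e]
    have h1 := uu_le_normSq hz (star x)
    obtain ⟨j, hj⟩ := Function.ne_iff.1 hx
    have h2 := le_uu (star x) j
    have h3 : 0 < ‖star x j‖ ^ 2 := by
      have : star x j ≠ 0 := by simpa using hj
      positivity
    exact_mod_cast (h3.trans_le h2).trans_le h1

lemma contDiffOn_gB (j k : Fin n) : ContDiffOn ℝ ∞ (fun z => gB z j k) (XB n) := by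
  intro z hz
  have ha : ContDiffAt ℝ ∞ (fun w : Fin n → ℂ => (aa (uu w) : ℂ)) z :=
    ofRealCLM.contDiff.contDiffAt.comp z ((contDiffAt_aa hz.1 hz.2).comp z contDiff_uu.contDiffAt)
  have hb : ContDiffAt ℝ ∞ (fun w : Fin n → ℂ => (bb (uu w) : ℂ)) z :=
    ofRealCLM.contDiff.contDiffAt.comp z ((contDiffAt_bb hz.1 hz.2).comp z contDiff_uu.contDiffAt)
  have hc : ContDiffAt ℝ ∞ (fun w : Fin n → ℂ => (starRingEnd ℂ) (w j)) z :=
    (conjCLE : ℂ →L[ℝ] ℂ).contDiff.contDiffAt.comp z (contDiffAt_apply ℝ ℂ j z)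
  exact ((ha.mul contDiffAt_const).add (hb.mul (hc.mul (contDiffAt_apply ℝ ℂ k z)))).contDiffWithinAt

lemma dz_gB {z : Fin n → ℂ} (hz : z ∈ XB n) (j k l : Fin n) :
    dz l (fun w => gB w j k) z = bb (uu z) * (starRingEnd ℂ) (z l) * (if j = k then 1 else 0) +
      (deriv bb (uu z) * (starRingEnd ℂ) (z l) * ((starRingEnd ℂ) (z j) * z k) +
        bb (uu z) * ((starRingEnd ℂ) (z j) * (if l = k then 1 else 0))) := by
  have ha := hasDerivAt_aa hz.1 hz.2
  have hb := ((contDiffAt_bb hz.1 hz.2).differentiableAt (by simp)).hasDerivAt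
  have hc := (diff_conj_coord z j).differentiableAt
  have hd : DifferentiableAt ℝ (fun w : Fin n → ℂ => w k) z := differentiableAt_apply k z
  simp only [gB, Matrix.of_apply]
  rw [dz_add ((diff_rad ha).mul_const _) ((diff_rad hb).fun_mul (hc.fun_mul hd)),
    dz_mul (diff_rad ha) (differentiableAt_const _), dz_mul (diff_rad hb) (hc.fun_mul hd),
    dz_mul hc hd, dz_rad ha, dz_rad hb, dz_const, dz_coord, dz_conj_coord]
  ring

lemma isKahler_gB : IsKahler (XB n) gB := by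
  refine ⟨contDiffOn_gB, fun z hz => posDef_gB hz, fun z hz j k l => ?_⟩
  rw [dz_gB hz, dz_gB hz]
  ring

lemma det_gB {z : Fin n → ℂ} (hz : z ∈ XB n) :
    (gB z).det = ((aa (uu z) ^ n * (-1 / Real.log (uu z)) : ℝ) : ℂ) := by
  have ha := (aa_pos hz.1 hz.2).ne'
  have e : gB z = (aa (uu z) : ℂ) • (1 + replicateCol Unit
      (fun j => ((bb (uu z) / aa (uu z) : ℝ) : ℂ) * (starRingEnd ℂ) (z j)) *
        replicateRow Unit z) := by
    ext j k
    have : (aa (uu z) : ℂ) ≠ 0 := by exact_mod_cast ha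
    simp [gB, Matrix.mul_apply, Matrix.one_apply]
    field_simp
    simp
  rw [e, det_smul, det_one_add_replicateCol_mul_replicateRow]
  have e2 : z ⬝ᵥ (fun j => ((bb (uu z) / aa (uu z) : ℝ) : ℂ) * (starRingEnd ℂ) (z j)) =
      ((bb (uu z) / aa (uu z) * uu z : ℝ) : ℂ) := by
    rw [ofReal_mul, uu_coe, Finset.mul_sum]
    exact Finset.sum_congr rfl fun j _ => by ring
  rw [e2, Fintype.card_fin]
  have e3 : 1 + bb (uu z) / aa (uu z) * uu z = -1 / Real.log (uu z) := by
    have hl := (log_neg' hz.1 hz.2).ne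
    have hu := hz.1.ne'
    unfold aa bb
    field_simp
    ring
  rw [← e3]
  push_cast
  ring

/-- logarithm of the volume density -/
noncomputable def LL (n : ℕ) (u : ℝ) : ℝ := -n * Real.log u - (n + 1) * Real.log (-Real.log u)

lemma log_det {z : Fin n → ℂ} (hz : z ∈ XB n) : Real.log (gB z).det.re = LL n (uu z) := by
  have hl := log_neg' hz.1 hz.2
  have hu := hz.1
  have e : aa (uu z) = (uu z)⁻¹ * (-Real.log (uu z))⁻¹ := by unfold aa; field_simp
  have e2 : -1 / Real.log (uu z) = (-Real.log (uu z))⁻¹ := by field_simp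
  rw [det_gB hz, ofReal_re, e2, e, Real.log_mul (by simp [hl.ne, hu.ne']) (by simp [hl.ne]),
    Real.log_pow, Real.log_mul (by simp [hu.ne']) (by simp [hl.ne]), Real.log_inv, Real.log_inv, LL]
  ring

lemma hasDerivAt_LL {u : ℝ} (h0 : 0 < u) (h1 : u < 1) :
    HasDerivAt (LL n) (-n * u⁻¹ + (n + 1) * aa u) u := by
  have hl := log_neg' h0 h1
  have := ((Real.hasDerivAt_log h0.ne').const_mul (-n : ℝ)).fun_sub
    (((Real.hasDerivAt_log h0.ne').fun_neg.log (by simp [hl.ne])).const_mul (n + 1 : ℝ))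
  refine (show HasDerivAt (LL n) _ u from this).congr_deriv ?_
  unfold aa
  field_simp
  ring

lemma ricci_gB {z : Fin n → ℂ} (hz : z ∈ XB n) (v : Fin n → ℂ) :
    -2 * (n + 1) * normSq gB z v ≤ ricci gB z v := by
  have e1 : ∀ k, (dzbar k fun w => (Real.log (gB w).det.re : ℂ)) =ᶠ[𝓝 z]
      fun w => ((-n * (uu w)⁻¹ + (n + 1) * aa (uu w) : ℝ) : ℂ) * w k := by
    intro k
    filter_upwards [isOpen_XB.mem_nhds hz] with w hw
    have : (fun w => (Real.log (gB w).det.re : ℂ)) =ᶠ[𝓝 w] fun w => (LL n (uu w) : ℂ) := by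
      filter_upwards [isOpen_XB.mem_nhds hw] with y hy
      rw [log_det hy]
    rw [dzbar_congr this, dzbar_rad (hasDerivAt_LL hw.1 hw.2)]
  have hd : HasDerivAt (fun u : ℝ => -n * u⁻¹ + (n + 1) * aa u)
      (-n * (-(uu z ^ 2)⁻¹) + (n + 1) * bb (uu z)) (uu z) :=
    ((hasDerivAt_inv hz.1.ne').const_mul _).fun_add ((hasDerivAt_aa hz.1 hz.2).const_mul _)
  have e2 : ∀ j k, dz j (dzbar k fun w => (Real.log (gB w).det.re : ℂ)) z =
      ((-n * (uu z)⁻¹ + (n + 1) * aa (uu z) : ℝ) : ℂ) * (if j = k then 1 else 0) +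
      ((-n * (-(uu z ^ 2)⁻¹) + (n + 1) * bb (uu z) : ℝ) : ℂ) * ((starRingEnd ℂ) (z j) * z k) := by
    intro j k
    rw [dz_congr (e1 k), dz_mul (diff_rad hd) (differentiableAt_apply k z), dz_rad hd, dz_coord]
    ring
  simp only [ricci, e2, quad_form, ofReal_re, normSq_gB]
  have h3 := cs_uu z v
  have hu := hz.1
  have h4 : (uu z ^ 2)⁻¹ * ‖∑ j, (starRingEnd ℂ) (z j) * v j‖ ^ 2 ≤ (uu z)⁻¹ * uu v := by
    rw [inv_mul_le_iff₀ (by positivity)]
    calc _ ≤ uu z * uu v := h3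
      _ = _ := by field_simp
  have hn : (0 : ℝ) ≤ n := Nat.cast_nonneg n
  nlinarith [mul_le_mul_of_nonneg_left h4 hn]

/-- the Busemann-type function -/
noncomputable def ss (u : ℝ) : ℝ := Real.log (-Real.log u) / 2

lemma hasDerivAt_ss {u : ℝ} (h0 : 0 < u) (h1 : u < 1) :
    HasDerivAt ss (1 / (2 * u * Real.log u)) u := by
  have hl := log_neg' h0 h1
  have := ((Real.hasDerivAt_log h0.ne').fun_neg.log (by simp [hl.ne])).div_const 2
  refine (show HasDerivAt ss _ u from this).congr_deriv ?_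
  field_simp

lemma contDiffAt_ss {u : ℝ} (h0 : 0 < u) (h1 : u < 1) : ContDiffAt ℝ ∞ ss u := by
  have hl := log_neg' h0 h1
  exact ((Real.contDiffAt_log.2 h0.ne').neg.log (by simp [hl.ne])).div_const 2

lemma ss_le_rdist (p q : Fin n → ℂ) :
    ENNReal.ofReal |ss (uu q) - ss (uu p)| ≤ rdist (XB n) gB p q := by
  refine le_rdist isOpen_XB (f := fun z => ss (uu z)) (fun z hz => ?_) (fun z hz v => ?_) p q
  · exact (((contDiffAt_ss hz.1 hz.2).of_le (by simp)).comp z
      contDiff_uu.contDiffAt).contDiffWithinAt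
  · rw [(hasFDerivAt_rad (hasDerivAt_ss hz.1 hz.2)).fderiv, normSq_gB]
    simp only [ContinuousLinearMap.smul_apply, fderiv_uu, smul_eq_mul]
    set c := ∑ j, (starRingEnd ℂ) (z j) * v j
    have hl := log_neg' hz.1 hz.2
    have hu := hz.1
    have h1 : c.re ^ 2 ≤ ‖c‖ ^ 2 := by
      rw [← sq_abs]; exact pow_le_pow_left₀ (abs_nonneg _) (abs_re_le_norm c) 2
    have h2 : ‖c‖ ^ 2 / uu z ≤ uu v := by rw [div_le_iff₀ hu, mul_comm]; exact cs_uu z v
    have h3 := mul_le_mul_of_nonneg_left h2 (aa_pos hz.1 hz.2).le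
    have h4 : aa (uu z) * (‖c‖ ^ 2 / uu z) + bb (uu z) * ‖c‖ ^ 2 =
        ‖c‖ ^ 2 / (uu z * Real.log (uu z)) ^ 2 := by
      have := aa_add hz.1 hz.2
      calc _ = (aa (uu z) + bb (uu z) * uu z) * (‖c‖ ^ 2 / uu z) := by field_simp
        _ = _ := by rw [this]; field_simp
    have h5 : (1 / (2 * uu z * Real.log (uu z)) * (2 * c.re)) ^ 2 =
        c.re ^ 2 / (uu z * Real.log (uu z)) ^ 2 := by field_simp
    have h6 : c.re ^ 2 / (uu z * Real.log (uu z)) ^ 2 ≤ ‖c‖ ^ 2 / (uu z * Real.log (uu z)) ^ 2 :=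
      div_le_div_of_nonneg_right h1 (sq_nonneg _)
    linarith

lemma exp_ss {u : ℝ} (h0 : 0 < u) (h1 : u < 1) : u = Real.exp (-Real.exp (2 * ss u)) := by
  have hl := log_neg' h0 h1
  rw [ss, mul_div_cancel₀ _ two_ne_zero, Real.exp_log (by linarith), neg_neg, Real.exp_log h0]

lemma mem_Icc_of_ss {u c d : ℝ} (h0 : 0 < u) (h1 : u < 1) (hc : c ≤ ss u) (hd : ss u ≤ d) :
    u ∈ Icc (Real.exp (-Real.exp (2 * d))) (Real.exp (-Real.exp (2 * c))) := by
  rw [exp_ss h0 h1]
  constructor <;> gcongr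

lemma complete_gB : IsCompleteMetric (XB n) gB := by
  refine complete_of isOpen_XB (fun j k => (contDiffOn_gB j k).continuousOn)
    (fun z hz v j => (le_uu v j).trans (uu_le_normSq hz v)) fun q _ => ?_
  have hcl : IsClosed ((uu : (Fin n → ℂ) → ℝ) ⁻¹' Icc (Real.exp (-Real.exp (2 * (ss (uu q) + 1))))
      (Real.exp (-Real.exp (2 * (ss (uu q) - 1))))) :=
    isClosed_Icc.preimage (contDiff_uu (m := 0)).continuous
  refine (closure_minimal (fun z hz => ?_) hcl).trans fun z hz => ?_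
  · have := (ss_le_rdist q z).trans_lt hz.2
    rw [ENNReal.ofReal_lt_one, abs_lt] at this
    exact mem_Icc_of_ss hz.1.1 hz.1.2 (by linarith) (by linarith)
  · refine ⟨(Real.exp_pos _).trans_le hz.1, hz.2.trans_lt ?_⟩
    rw [Real.exp_lt_one_iff]
    simpa using Real.exp_pos _

end Pool.Agent.P.MP_e5c6eb_gt
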