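import Pool.Agent.P.MP_e5c6eb_gt.Metric
import Pool.Agent.Lib.Kahler.Bump

namespace Pool.Agent.P.MP_e5c6eb_gt

open Set Filter Topology Complex Matrix Pool.Agent.Lib.Kahler MeasureTheory
open scoped ComplexOrder ContDiff

variable {n : ℕ}

lemma uu_eq_norm (z : Fin n → ℂ) : uu z = ‖(WithLp.toLp 2 z : EuclideanSpace ℂ (Fin n))‖ ^ 2 := by
  rw [EuclideanSpace.norm_sq_eq]; rfl

lemma XB_nonempty (hn : 1 ≤ n) : (XB n).Nonempty := by
  refine ⟨Pi.single ⟨0, hn⟩ (1 / 2), ?_⟩
  have : uu (Pi.single (⟨0, hn⟩ : Fin n) (1 / 2 : ℂ)) = 1 / 4 := by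
    rw [uu, Finset.sum_eq_single ⟨0, hn⟩]
    · norm_num
    · intro b _ hb; simp [hb]
    · simp
  constructor <;> rw [this] <;> norm_num

lemma sum_conj_self (z : Fin n → ℂ) : ‖∑ j, (starRingEnd ℂ) (z j) * z j‖ = uu z := by
  rw [← uu_coe, norm_real, Real.norm_of_nonneg (uu_nonneg z)]

lemma lower (hn : 1 ≤ n) : (n : ℝ) ^ 2 ≤ lambda0 (XB n) gB := by
  refine le_lambda0 isOpen_XB (XB_nonempty hn) (fun j k => (contDiffOn_gB j k).continuousOn)
    (fun z hz => posDef_gB hz) (fun z => (n * Real.log (uu z)) • z)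
    (fun z => (-n * aa (uu z) ^ n) • z) (fun z hz => ?_) (fun z hz => ?_) _ (fun z hz => ?_)
  · have ha : ContDiffAt ℝ 1 (fun w : Fin n → ℂ => aa (uu w)) z :=
      ((contDiffAt_aa hz.1 hz.2).of_le (by simp)).comp z contDiff_uu.contDiffAt
    exact ((contDiffAt_const.mul (ha.pow n)).smul contDiffAt_id).contDiffWithinAt
  · have hl := (log_neg' hz.1 hz.2).ne
    rw [det_gB hz, ofReal_re, smul_smul]
    congr 1
    field_simp
  · have hd : HasDerivAt (fun u => -n * aa u ^ n) (-n * (n * aa (uu z) ^ (n - 1) * bb (uu z)))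
        (uu z) := ((hasDerivAt_aa hz.1 hz.2).fun_pow n).const_mul _
    rw [divg_rad hd, normSq_smul, normSq_gB, sum_conj_self, det_gB hz, ofReal_re]
    obtain ⟨m, rfl⟩ : ∃ m, n = m + 1 := ⟨n - 1, by omega⟩
    have hl := (log_neg' hz.1 hz.2).ne
    have hu := hz.1.ne'
    apply le_of_eq
    simp only [Nat.add_sub_cancel, pow_succ (aa (uu z)) m]
    generalize aa (uu z) ^ m = A
    unfold aa bb
    field_simp
    ring

lemma polar (hn : 1 ≤ n) : ∃ c : ℝ, 0 < c ∧ ∀ H : ℝ → ℝ,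
    ∫ z : Fin n → ℂ, H (uu z) = c * ∫ y in Ioi (0 : ℝ), y ^ (2 * n - 1) * H (y ^ 2) := by
  let e : (Fin n → ℂ) ≃L[ℝ] EuclideanSpace ℂ (Fin n) :=
    (PiLp.continuousLinearEquiv 2 ℝ (fun _ : Fin n => ℂ)).symm
  let μ : Measure (EuclideanSpace ℂ (Fin n)) := volume.map e
  have : μ.IsAddHaarMeasure := e.isAddHaarMeasure_map _
  have : Nonempty (Fin n) := ⟨⟨0, hn⟩⟩
  have hdim : Module.finrank ℝ (EuclideanSpace ℂ (Fin n)) = 2 * n := by
    rw [← e.toLinearEquiv.finrank_eq, Module.finrank_pi_fintype]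
    simp [mul_comm]
  refine ⟨(2 * n : ℕ) * μ.real (Metric.ball 0 1), ?_, fun H => ?_⟩
  · refine mul_pos (by positivity) ?_
    exact ENNReal.toReal_pos (Metric.measure_ball_pos μ 0 one_pos).ne' measure_ball_lt_top.ne
  · have h1 := integral_fun_norm_addHaar μ (fun y => H (y ^ 2))
    have h2 : ∫ x, H (‖x‖ ^ 2) ∂μ = ∫ z : Fin n → ℂ, H (uu z) := by
      rw [show μ = volume.map e.toHomeomorph.toMeasurableEquiv from rfl, integral_map_equiv]
      simp only [uu_eq_norm]
      rfl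
    rw [← h2, h1, hdim]
    simp [mul_assoc]

/-- radius as a function of the Busemann coordinate -/
noncomputable def rr (s : ℝ) : ℝ := Real.exp (-Real.exp (2 * s) / 2)

lemma rr_sq (s : ℝ) : rr s ^ 2 = Real.exp (-Real.exp (2 * s)) := by
  rw [rr, ← Real.exp_nat_mul]; congr 1; push_cast; ring

lemma rr_sq_mem (s : ℝ) : rr s ^ 2 ∈ Ioo (0 : ℝ) 1 := by
  rw [rr_sq]
  exact ⟨Real.exp_pos _, by rw [Real.exp_lt_one_iff]; simpa using Real.exp_pos _⟩

lemma ss_rr (s : ℝ) : ss (rr s ^ 2) = s := by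
  rw [rr_sq, ss, Real.log_exp, neg_neg, Real.log_exp]; ring

lemma subst_rr (hn : 1 ≤ n) (H : ℝ → ℝ) (hH : ∀ u, 1 ≤ u → H u = 0) :
    ∫ y in Ioi (0 : ℝ), y ^ (2 * n - 1) * H (y ^ 2) =
      ∫ s, Real.exp (2 * s) * (rr s ^ 2) ^ n * H (rr s ^ 2) := by
  have h1 : ∫ y in Ioi (0 : ℝ), y ^ (2 * n - 1) * H (y ^ 2) =
      ∫ y in Ioo (0 : ℝ) 1, y ^ (2 * n - 1) * H (y ^ 2) := by
    refine setIntegral_eq_of_subset_of_forall_diff_eq_zero measurableSet_Ioi Ioo_subset_Ioi_self
      fun y hy => ?_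
    have : 1 ≤ y := by
      by_contra h
      exact hy.2 ⟨hy.1, not_le.1 h⟩
    rw [hH _ (one_le_pow₀ this), mul_zero]
  have h2 : rr '' univ = Ioo 0 1 := by
    ext y
    constructor
    · rintro ⟨s, -, rfl⟩
      refine ⟨Real.exp_pos _, ?_⟩
      rw [rr, Real.exp_lt_one_iff]
      have := Real.exp_pos (2 * s)
      linarith
    · intro hy
      refine ⟨ss (y ^ 2), trivial, ?_⟩
      have h3 := exp_ss (pow_pos hy.1 2) (pow_lt_one₀ hy.1.le hy.2 two_ne_zero)
      rw [← rr_sq] at h3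
      exact (pow_left_inj₀ (Real.exp_pos _).le hy.1.le two_ne_zero).1 h3.symm
  have h3 : ∀ s, HasDerivAt rr (rr s * (-(Real.exp (2 * s) * 2) / 2)) s := fun s => by
    have := ((((hasDerivAt_id' s).const_mul 2).exp).fun_neg.div_const 2).exp
    simp only [mul_one] at this
    exact this
  have h4 : InjOn rr univ := fun a _ b _ h => by rw [← ss_rr a, h, ss_rr]
  rw [h1, ← h2, integral_image_eq_integral_abs_deriv_smul MeasurableSet.univ
    (fun s _ => (h3 s).hasDerivWithinAt) h4, Measure.restrict_univ]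
  refine integral_congr_ae (Eventually.of_forall fun s => ?_)
  have hr : 0 < rr s := Real.exp_pos _
  have he := Real.exp_pos (2 * s)
  obtain ⟨m, rfl⟩ : ∃ m, n = m + 1 := ⟨n - 1, by omega⟩
  simp only [smul_eq_mul]
  rw [abs_of_neg (by nlinarith), show 2 * (m + 1) - 1 = 2 * m + 1 by omega]
  ring

lemma dens_rr (s : ℝ) : Real.exp (2 * s) * (rr s ^ 2) ^ n * (Real.exp (n * s) ^ 2 *
    (aa (rr s ^ 2) ^ n * (-1 / Real.log (rr s ^ 2)))) = 1 := by
  have h1 : Real.exp (n * s) ^ 2 = Real.exp (2 * s) ^ n := by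
    rw [← Real.exp_nat_mul, ← Real.exp_nat_mul]; congr 1; push_cast; ring
  have hu := (rr_sq_mem s).1.ne'
  have hl : Real.log (rr s ^ 2) = -Real.exp (2 * s) := by rw [rr_sq, Real.log_exp]
  have he := (Real.exp_pos (2 * s)).ne'
  have h2 : aa (rr s ^ 2) = (rr s ^ 2)⁻¹ * (Real.exp (2 * s))⁻¹ := by
    rw [aa, hl]; field_simp
  rw [h1, h2, hl, mul_pow, inv_pow, inv_pow]
  field_simp

lemma gradSq_rad {G : ℝ → ℝ} {G' : ℝ} {z : Fin n → ℂ} (hz : z ∈ XB n)
    (h : HasDerivAt G G' (uu z)) :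
    gradSq gB (fun w => G (uu w)) z = (2 * uu z * Real.log (uu z) * G') ^ 2 := by
  have hl := (log_neg' hz.1 hz.2).ne
  have hu := hz.1.ne'
  have e1 : gB z *ᵥ (fun k => ((uu z * Real.log (uu z) ^ 2 : ℝ) : ℂ) * (starRingEnd ℂ) (z k)) =
      fun k => (starRingEnd ℂ) (z k) := by
    funext j
    have h1 : (aa (uu z) + bb (uu z) * uu z) * (uu z * Real.log (uu z) ^ 2) = 1 := by
      rw [aa_add hz.1 hz.2]; field_simp
    have h2 : (((aa (uu z) + bb (uu z) * uu z) * (uu z * Real.log (uu z) ^ 2) : ℝ) : ℂ) = 1 := by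
      rw [h1]; simp
    generalize uu z * Real.log (uu z) ^ 2 = κ at h2 ⊢
    simp only [mulVec, dotProduct, gB, Matrix.of_apply, add_mul, Finset.sum_add_distrib]
    rw [Finset.sum_eq_single j (by intro b _ hb; simp [hb.symm]) (by simp)]
    have : ∑ k, (bb (uu z) : ℂ) * ((starRingEnd ℂ) (z j) * z k) * (κ * (starRingEnd ℂ) (z k)) =
        bb (uu z) * (starRingEnd ℂ) (z j) * κ * uu z := by
      rw [uu_coe, Finset.mul_sum]
      exact Finset.sum_congr rfl fun k _ => by ring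
    rw [this]
    push_cast at h2
    simp only [if_true]
    linear_combination (starRingEnd ℂ) (z j) * h2
  have e2 : (gB z)⁻¹ *ᵥ (fun k => (starRingEnd ℂ) (z k)) =
      fun k => ((uu z * Real.log (uu z) ^ 2 : ℝ) : ℂ) * (starRingEnd ℂ) (z k) := by
    rw [← e1, mulVec_mulVec, nonsing_inv_mul _ ((isUnit_iff_isUnit_det _).1 (posDef_gB hz).isUnit),
      one_mulVec]
  have e3 : ∑ j, ∑ k, (starRingEnd ℂ) (G' * (starRingEnd ℂ) (z j)) * (gB z)⁻¹ j k *
      (G' * (starRingEnd ℂ) (z k)) = ((G' ^ 2 * (uu z * Real.log (uu z) ^ 2) * uu z : ℝ) : ℂ) := by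
    rw [ofReal_mul, uu_coe, Finset.mul_sum]
    refine Finset.sum_congr rfl fun j _ => ?_
    have := congrFun e2 j
    simp only [mulVec, dotProduct] at this
    have e4 : ∑ k, (starRingEnd ℂ) (G' * (starRingEnd ℂ) (z j)) * (gB z)⁻¹ j k *
      (G' * (starRingEnd ℂ) (z k)) = G' ^ 2 * z j * ∑ k, (gB z)⁻¹ j k * (starRingEnd ℂ) (z k) := by
      rw [Finset.mul_sum]
      exact Finset.sum_congr rfl fun k _ => by simp; ring
    rw [e4, this]
    push_cast
    ring
  simp only [gradSq, dz_rad h, e3, ofReal_re]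
  ring

lemma upper (hn : 1 ≤ n) : lambda0 (XB n) gB ≤ (n : ℝ) ^ 2 := by
  refine le_of_forall_pos_le_add fun ε hε => ?_
  obtain ⟨F, hF, hc, -, hpos, hle⟩ := exists_flat_bump hε
  obtain ⟨R, hR⟩ := hc.isCompact.isBounded.subset_closedBall 0
  let G : ℝ → ℝ := (Ioo (0 : ℝ) 1).indicator fun u => Real.exp (n * ss u) * F (ss u)
  let K : Set ℝ := Icc (Real.exp (-Real.exp (2 * R))) (Real.exp (-Real.exp (2 * (-R))))
  have hK : K ⊆ Ioo 0 1 := fun u hu => ⟨(Real.exp_pos _).trans_le hu.1, hu.2.trans_lt (by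
    rw [Real.exp_lt_one_iff]; simpa using Real.exp_pos _)⟩
  have hGK : ∀ u, u ∉ K → G u = 0 := by
    intro u hu
    by_cases h : u ∈ Ioo (0 : ℝ) 1
    · have : ss u ∉ tsupport F := fun h2 => by
        have := hR h2
        rw [Real.closedBall_eq_Icc] at this
        exact hu (mem_Icc_of_ss h.1 h.2 (by simpa using this.1) (by simpa using this.2))
      simp [G, h, image_eq_zero_of_notMem_tsupport this]
    · simp [G, h]
  have hGe : ∀ u ∈ Ioo (0 : ℝ) 1, G =ᶠ[𝓝 u] fun u => Real.exp (n * ss u) * F (ss u) := by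
    intro u hu
    filter_upwards [isOpen_Ioo.mem_nhds hu] with v hv
    simp [G, hv]
  have hG : ContDiff ℝ ∞ G := by
    rw [contDiff_iff_contDiffAt]
    intro u
    by_cases h : u ∈ Ioo (0 : ℝ) 1
    · have hs := contDiffAt_ss h.1 h.2
      exact (((contDiffAt_const.mul hs).exp).mul (hF.contDiffAt.comp u hs)).congr_of_eventuallyEq
        (hGe u h)
    · refine (contDiffAt_const (c := (0 : ℝ))).congr_of_eventuallyEq ?_
      filter_upwards [isClosed_Icc.isOpen_compl.mem_nhds fun h2 => h (hK h2)] with v hv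
      exact hGK v hv
  have hGd : ∀ u ∈ Ioo (0 : ℝ) 1, HasDerivAt G (Real.exp (n * ss u) * (n * F (ss u) +
      deriv F (ss u)) * (1 / (2 * u * Real.log u))) u := by
    intro u hu
    have hs := hasDerivAt_ss hu.1 hu.2
    have := ((hs.const_mul (n : ℝ)).exp).fun_mul
      ((hF.differentiable (by simp) (ss u)).hasDerivAt.comp u hs)
    refine (this.congr_deriv ?_).congr_of_eventuallyEq (hGe u hu)
    simp only [Function.comp]
    ring
  have hsup : tsupport (fun z : Fin n → ℂ => G (uu z)) ⊆ uu ⁻¹' K :=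
    closure_minimal (fun z hz => by_contra fun h => hz (hGK _ h))
      (isClosed_Icc.preimage (contDiff_uu (m := 0)).continuous)
  have hX : tsupport (fun z : Fin n → ℂ => G (uu z)) ⊆ XB n := fun z hz => hK (hsup hz)
  have hcs : HasCompactSupport (fun z : Fin n → ℂ => G (uu z)) := by
    refine (isCompact_closedBall (0 : Fin n → ℂ) 1).of_isClosed_subset (isClosed_tsupport _)
      fun z hz => ?_
    rw [mem_closedBall_zero_iff, pi_norm_le_iff_of_nonneg zero_le_one]
    intro j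
    have := (le_uu z j).trans (hX hz).2.le
    exact (sq_le_one_iff₀ (norm_nonneg _)).1 this
  obtain ⟨c, hc0, hpol⟩ := polar hn
  have hden : ∫ z : Fin n → ℂ, G (uu z) ^ 2 * (gB z).det.re = c * ∫ s, F s ^ 2 := by
    have : ∀ z : Fin n → ℂ, G (uu z) ^ 2 * (gB z).det.re =
        G (uu z) ^ 2 * (aa (uu z) ^ n * (-1 / Real.log (uu z))) := by
      intro z
      by_cases hz : z ∈ XB n
      · rw [det_gB hz, ofReal_re]
      · have : G (uu z) = 0 := hGK _ fun h => hz (hK h)
        simp [this]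
    simp only [this]
    rw [hpol fun u => G u ^ 2 * (aa u ^ n * (-1 / Real.log u)),
      subst_rr hn (fun u => G u ^ 2 * (aa u ^ n * (-1 / Real.log u)))
        fun u hu => by simp [hGK u fun h => (hK h).2.not_ge hu]]
    congr 1
    refine integral_congr_ae (Eventually.of_forall fun s => ?_)
    have := dens_rr (n := n) s
    simp only [G, indicator_of_mem (rr_sq_mem s), ss_rr]
    linear_combination F s ^ 2 * this
  have hnum : ∫ z : Fin n → ℂ, gradSq gB (fun w => G (uu w)) z * (gB z).det.re =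
      c * ∫ s, (n * F s + deriv F s) ^ 2 := by
    let H : ℝ → ℝ := (Ioo (0 : ℝ) 1).indicator fun u => (Real.exp (n * ss u) * (n * F (ss u) +
      deriv F (ss u))) ^ 2 * (aa u ^ n * (-1 / Real.log u))
    have : ∀ z : Fin n → ℂ, gradSq gB (fun w => G (uu w)) z * (gB z).det.re = H (uu z) := by
      intro z
      by_cases hz : z ∈ XB n
      · have hl := (log_neg' hz.1 hz.2).ne
        have hu := hz.1.ne'
        rw [det_gB hz, ofReal_re, gradSq_rad hz (hGd _ hz)]
        simp only [H, indicator_of_mem (show uu z ∈ Ioo (0 : ℝ) 1 from hz)]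
        congr 2
        field_simp
      · rw [gradSq_eq_zero fun h => hz (hX h)]
        simp only [H, indicator_of_notMem (show uu z ∉ Ioo (0 : ℝ) 1 from hz), zero_mul]
    simp only [this]
    rw [hpol H, subst_rr hn H fun u hu => indicator_of_notMem (fun h => h.2.not_ge hu) _]
    congr 1
    refine integral_congr_ae (Eventually.of_forall fun s => ?_)
    have := dens_rr (n := n) s
    simp only [H, indicator_of_mem (rr_sq_mem s), ss_rr]
    linear_combination (n * F s + deriv F s) ^ 2 * this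
  have hne : (fun z : Fin n → ℂ => G (uu z)) ≠ 0 := by
    intro h
    have h2 : ∀ z : Fin n → ℂ, G (uu z) = 0 := congrFun h
    simp only [h2] at hden
    have := mul_pos hc0 hpos
    rw [← hden] at this
    simp at this
  refine (lambda0_le (fun z hz => posDef_gB hz) (hG.comp contDiff_uu) hcs hX hne).trans ?_
  change (∫ z : Fin n → ℂ, gradSq gB (fun w => G (uu w)) z * (gB z).det.re) /
    (∫ z : Fin n → ℂ, G (uu z) ^ 2 * (gB z).det.re) ≤ _
  rw [hnum, hden, mul_div_mul_left _ _ hc0.ne', div_le_iff₀ hpos]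
  exact hle n

theorem lambda0_gB (hn : 1 ≤ n) : lambda0 (XB n) gB = (n : ℝ) ^ 2 :=
  le_antisymm (upper hn) (lower hn)

end Pool.Agent.P.MP_e5c6eb_gt
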