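import Pool.Agent.P.MP_e5c6eb_gt.Spectrum

namespace Pool.Agent.P.MP_e5c6eb_gt

open Set Filter Topology Complex Pool.Agent.Lib.Kahler

variable {n : ℕ}

lemma cont_uu : Continuous (uu : (Fin n → ℂ) → ℝ) := (contDiff_uu (m := 0)).continuous

lemma uu_smul (c : ℝ) (z : Fin n → ℂ) : uu (c • z) = c ^ 2 * uu z := by
  simp [uu, mul_pow, Finset.mul_sum]

lemma uu_zero : uu (0 : Fin n → ℂ) = 0 := by simp [uu]

lemma uu_pos {z : Fin n → ℂ} (hz : z ≠ 0) : 0 < uu z := by
  obtain ⟨j, hj⟩ := Function.ne_iff.1 hz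
  have : z j ≠ 0 := hj
  exact lt_of_lt_of_le (by positivity) (le_uu z j)

lemma uu_single (i : Fin n) : uu (Pi.single i (1 : ℂ)) = 1 := by
  rw [uu, Finset.sum_eq_single i]
  · simp
  · intro b _ hb; simp [hb]
  · simp

lemma isCompact_uu_le (c : ℝ) : IsCompact {z : Fin n → ℂ | uu z ≤ c} := by
  refine (isCompact_closedBall (0 : Fin n → ℂ) (√c)).of_isClosed_subset
    (isClosed_le cont_uu continuous_const) fun z hz => ?_
  rw [mem_closedBall_zero_iff, pi_norm_le_iff_of_nonneg (Real.sqrt_nonneg _)]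
  intro j
  exact Real.le_sqrt_of_sq_le ((le_uu z j).trans hz)

lemma finrank_E : Module.finrank ℝ (Fin n → ℂ) = 2 * n := by
  rw [Module.finrank_pi_fintype]; simp [mul_comm]

lemma preconn_annulus (hn : 1 ≤ n) {a b : ℝ} (ha : 0 ≤ a) :
    IsPreconnected {z : Fin n → ℂ | a < uu z ∧ uu z < b} := by
  have h0 : IsPreconnected ({0}ᶜ : Set (Fin n → ℂ)) := by
    refine (isConnected_compl_singleton_of_one_lt_rank ?_ 0).isPreconnected
    rw [← Module.finrank_eq_rank, finrank_E]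
    exact_mod_cast (by omega : 1 < 2 * n)
  have h1 := ((isPreconnected_Ioo (a := a) (b := b)).prod h0).image
    (fun p : ℝ × (Fin n → ℂ) => √(p.1 / uu p.2) • p.2) (by
      refine ContinuousOn.smul (Real.continuous_sqrt.comp_continuousOn ?_) continuousOn_snd
      exact continuousOn_fst.div (cont_uu.comp continuous_snd).continuousOn
        fun p hp => (uu_pos hp.2).ne')
  convert h1 using 1
  ext z
  constructor
  · intro hz
    have hz0 : 0 < uu z := ha.trans_lt hz.1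
    refine ⟨(uu z, z), ⟨hz, ?_⟩, by simp [hz0.ne']⟩
    rintro rfl
    simp [uu_zero] at hz0
  · rintro ⟨⟨r, x⟩, ⟨hr, hx⟩, rfl⟩
    have hx0 := uu_pos hx
    have hr0 : 0 ≤ r := ha.trans hr.1.le
    simp only [mem_ofPred_eq, uu_smul]
    rw [Real.sq_sqrt (div_nonneg hr0 hx0.le), div_mul_cancel₀ _ hx0.ne']
    exact hr

lemma isConnected_XB (hn : 1 ≤ n) : IsConnected (XB n) :=
  ⟨XB_nonempty hn, preconn_annulus hn le_rfl⟩

lemma not_isCompact_XB (hn : 1 ≤ n) : ¬ IsCompact (XB n) := by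
  intro h
  have := IsClopen.eq_univ ⟨h.isClosed, isOpen_XB⟩ (XB_nonempty hn)
  have h0 : (0 : Fin n → ℂ) ∈ XB n := this ▸ mem_univ _
  exact absurd h0.1 (by simp [uu_zero])

lemma unb (i : Fin n) (σ : ℝ) (hσ : |σ| = 1) (C : Set (Fin n → ℂ))
    (hC : ∀ t : ℝ, 0 < t → rr (σ * t) • (Pi.single i 1 : Fin n → ℂ) ∈ C) (R : NNReal) :
    ∃ x ∈ C, ∃ y ∈ C, (R : ENNReal) < rdist (XB n) gB x y := by
  refine ⟨_, hC 1 one_pos, _, hC (R + 2) (by positivity), lt_of_lt_of_le ?_ (ss_le_rdist _ _)⟩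
  simp only [uu_smul, uu_single, mul_one, ss_rr]
  rw [show σ * (R + 2) - σ = σ * (R + 1) by ring, abs_mul, hσ, one_mul,
    abs_of_pos (by positivity), ← ENNReal.ofReal_coe_nnreal,
    ENNReal.ofReal_lt_ofReal_iff (by positivity)]
  linarith

lemma two_ends (hn : 1 ≤ n) : ∃ K ⊆ XB n, IsCompact K ∧ ∃ p ∈ XB n \ K, ∃ q ∈ XB n \ K,
    connectedComponentIn (XB n \ K) p ≠ connectedComponentIn (XB n \ K) q ∧
    (∀ R : NNReal, ∃ x ∈ connectedComponentIn (XB n \ K) p, ∃ y ∈ connectedComponentIn (XB n \ K) p,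
      (R : ENNReal) < rdist (XB n) gB x y) ∧
    (∀ R : NNReal, ∃ x ∈ connectedComponentIn (XB n \ K) q, ∃ y ∈ connectedComponentIn (XB n \ K) q,
      (R : ENNReal) < rdist (XB n) gB x y) := by
  let i : Fin n := ⟨0, hn⟩
  let c : ℝ := Real.exp (-1)
  have hc0 : 0 < c := Real.exp_pos _
  have hc1 : c < 1 := by rw [Real.exp_lt_one_iff]; norm_num
  let K : Set (Fin n → ℂ) := {z | uu z = c}
  have in1 : ∀ t : ℝ, 0 < t → rr (1 * t) • (Pi.single i 1 : Fin n → ℂ) ∈
      {z : Fin n → ℂ | 0 < uu z ∧ uu z < c} := by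
    intro t ht
    simp only [mem_ofPred_eq, uu_smul, uu_single, mul_one]
    refine ⟨(rr_sq_mem _).1, ?_⟩
    rw [rr_sq, Real.exp_lt_exp, neg_lt_neg_iff, Real.one_lt_exp_iff]
    linarith
  have in2 : ∀ t : ℝ, 0 < t → rr (-1 * t) • (Pi.single i 1 : Fin n → ℂ) ∈
      {z : Fin n → ℂ | c < uu z ∧ uu z < 1} := by
    intro t ht
    simp only [mem_ofPred_eq, uu_smul, uu_single, mul_one]
    refine ⟨?_, (rr_sq_mem _).2⟩
    rw [rr_sq, Real.exp_lt_exp, neg_lt_neg_iff, Real.exp_lt_one_iff]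
    linarith
  have s1 : {z : Fin n → ℂ | 0 < uu z ∧ uu z < c} ⊆ XB n \ K :=
    fun z hz => ⟨⟨hz.1, hz.2.trans hc1⟩, hz.2.ne⟩
  have s2 : {z : Fin n → ℂ | c < uu z ∧ uu z < 1} ⊆ XB n \ K :=
    fun z hz => ⟨⟨hc0.trans hz.1, hz.2⟩, hz.1.ne'⟩
  refine ⟨K, fun z hz => ⟨hz ▸ hc0, hz ▸ hc1⟩, (isCompact_uu_le c).of_isClosed_subset
    (isClosed_eq cont_uu continuous_const) fun z hz => le_of_eq hz,
    _, s1 (in1 1 one_pos), _, s2 (in2 1 one_pos), fun h => ?_, ?_, ?_⟩
  · have a := mem_connectedComponentIn (s1 (in1 1 one_pos))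
    have b := mem_connectedComponentIn (s2 (in2 1 one_pos))
    rw [← h] at b
    obtain ⟨z, hz, hz2⟩ := isPreconnected_connectedComponentIn.intermediate_value a b
      cont_uu.continuousOn ⟨(in1 1 one_pos).2.le, (in2 1 one_pos).1.le⟩
    exact (connectedComponentIn_subset _ _ hz).2 hz2
  · exact unb i 1 (by simp) _ fun t ht =>
      (preconn_annulus hn le_rfl).subset_connectedComponentIn (in1 1 one_pos) s1 (in1 t ht)
  · exact unb i (-1) (by simp) _ fun t ht =>
      (preconn_annulus hn hc0.le).subset_connectedComponentIn (in2 1 one_pos) s2 (in2 t ht)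

lemma convex_B : Convex ℝ {z : Fin n → ℂ | uu z < 1} := by
  have := (convex_ball (0 : EuclideanSpace ℂ (Fin n)) 1).linear_preimage
    (WithLp.linearEquiv 2 ℝ (Fin n → ℂ)).symm.toLinearMap
  have e : {z : Fin n → ℂ | uu z < 1} = (WithLp.linearEquiv 2 ℝ (Fin n → ℂ)).symm.toLinearMap ⁻¹'
      (Metric.ball (0 : EuclideanSpace ℂ (Fin n)) 1) := by
    ext z
    simp only [mem_ofPred_eq, uu_eq_norm, mem_preimage, mem_ball_zero_iff]
    exact sq_lt_one_iff₀ (norm_nonneg _)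
  rw [e]
  exact this

/-- the ball slit along a ray -/
def slit (i : Fin n) (σ : ℝ) : Set (Fin n → ℂ) :=
  {z | uu z < 1 ∧ ¬ (z = (z i).re • (Pi.single i 1 : Fin n → ℂ) ∧ 0 ≤ σ * (z i).re)}

lemma slit_subset (i : Fin n) (σ : ℝ) : slit i σ ⊆ XB n := by
  refine fun z hz => ⟨uu_pos ?_, hz.1⟩
  rintro rfl
  exact hz.2 (by simp)

lemma isOpen_slit (i : Fin n) (σ : ℝ) : IsOpen (slit i σ) := by
  have h : IsClosed {z : Fin n → ℂ | z = (z i).re • (Pi.single i 1 : Fin n → ℂ) ∧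
      0 ≤ σ * (z i).re} :=
    (isClosed_eq continuous_id (by fun_prop)).inter
      (isClosed_le (g := fun z : Fin n → ℂ => σ * (z i).re) continuous_const (by fun_prop))
  exact (isOpen_lt cont_uu continuous_const).inter h.isOpen_compl

lemma star_slit (i : Fin n) (σ : ℝ) (hσ : σ * σ = 1) :
    (-σ / 2) • (Pi.single i 1 : Fin n → ℂ) ∈ slit i σ ∧
    StarConvex ℝ ((-σ / 2) • (Pi.single i 1 : Fin n → ℂ)) (slit i σ) := by
  have h1 : uu ((-σ / 2) • (Pi.single i 1 : Fin n → ℂ)) < 1 := by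
    rw [uu_smul, uu_single]; nlinarith
  constructor
  · refine ⟨h1, fun h => ?_⟩
    have := h.2
    simp at this
    nlinarith
  · intro y hy a b ha hb hab
    refine ⟨convex_B h1 hy.1 ha hb hab, fun h => ?_⟩
    have e : ((a • (-σ / 2) • (Pi.single i 1 : Fin n → ℂ) + b • y) i).re =
        a * (-σ / 2) + b * (y i).re := by simp
    rw [e] at h
    obtain ⟨h2, h3⟩ := h
    have hb0 : 0 < b := by
      rcases hb.eq_or_lt with rfl | hb0
      · nlinarith
      · exact hb0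
    refine hy.2 ⟨?_, ?_⟩
    · rw [add_smul, mul_smul, add_right_inj, mul_smul] at h2
      exact smul_right_injective _ hb0.ne' h2
    · by_contra h4
      nlinarith [mul_pos hb0 (neg_pos.2 (not_le.1 h4))]

lemma preconn_inter (hn : 2 ≤ n) (i : Fin n) : IsConnected (slit i 1 ∩ slit i (-1)) := by
  let L : Submodule ℝ (Fin n → ℂ) := Submodule.span ℝ {Pi.single i 1}
  have hL : ∀ z, z ∈ L ↔ z = (z i).re • (Pi.single i 1 : Fin n → ℂ) := by
    intro z
    rw [Submodule.mem_span_singleton]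
    constructor
    · rintro ⟨a, rfl⟩; simp
    · intro h; exact ⟨_, h.symm⟩
  have h0 : IsConnected ((L : Set (Fin n → ℂ))ᶜ) := by
    apply isConnected_compl_of_one_lt_codim
    have h1 := L.finrank_quotient_add_finrank
    have h2 : Module.finrank ℝ L ≤ 1 := (finrank_span_le_card _).trans (by simp)
    rw [finrank_E] at h1
    rw [← Module.finrank_eq_rank]
    exact_mod_cast (by omega : 1 < Module.finrank ℝ ((Fin n → ℂ) ⧸ L))
  have h1 := h0.image (fun z => √((1 + uu z)⁻¹) • z) (by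
    refine (Continuous.smul (Real.continuous_sqrt.comp ?_) continuous_id).continuousOn
    exact (continuous_const.add cont_uu).inv₀ fun z =>
      (add_pos_of_pos_of_nonneg one_pos (uu_nonneg z)).ne')
  have h2 : slit i 1 ∩ slit i (-1) = {z | uu z < 1 ∧ z ∉ L} := by
    ext z
    simp only [slit, mem_inter_iff, mem_ofPred_eq, hL]
    constructor
    · rintro ⟨⟨a, b⟩, -, c⟩
      refine ⟨a, fun h => ?_⟩
      rcases le_total 0 (z i).re with h3 | h3
      · exact b ⟨h, by linarith⟩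
      · exact c ⟨h, by linarith⟩
    · rintro ⟨a, b⟩
      exact ⟨⟨a, fun h => b h.1⟩, a, fun h => b h.1⟩
  rw [h2]
  convert h1 using 1
  ext z
  constructor
  · rintro ⟨a, b⟩
    have ha : 0 < 1 - uu z := by linarith
    refine ⟨√((1 - uu z)⁻¹) • z, fun h => b ((L.smul_mem_iff (by positivity)).1 h), ?_⟩
    simp only [uu_smul, smul_smul]
    rw [Real.sq_sqrt (by positivity), ← Real.sqrt_mul (by have := uu_nonneg z; positivity)]
    have : (1 + (1 - uu z)⁻¹ * uu z)⁻¹ * (1 - uu z)⁻¹ = 1 := by field_simp; ring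
    rw [this]; simp
  · rintro ⟨y, hy, rfl⟩
    have := uu_nonneg y
    refine ⟨?_, fun h => hy ((L.smul_mem_iff (by positivity)).1 h)⟩
    rw [uu_smul, Real.sq_sqrt (by positivity), inv_mul_lt_iff₀ (by positivity)]
    linarith

lemma lift_slit {Y : Type*} [TopologicalSpace Y] {π : Y → XB n} (hπ : IsCoveringMap π) (i : Fin n)
    (σ : ℝ) (hσ : σ * σ = 1) (e : Y) (he : (π e).1 ∈ slit i σ) :
    ∃ F : (Fin n → ℂ) → Y, ContinuousOn F (slit i σ) ∧ F (π e).1 = e ∧
      ∀ z ∈ slit i σ, (π (F z)).1 = z := by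
  classical
  have := (star_slit i σ hσ).2.contractibleSpace ⟨_, (star_slit i σ hσ).1⟩
  have := (isOpen_slit i σ).locallyPathConnectedSpace
  obtain ⟨F, ⟨h1, h2⟩, -⟩ := hπ.existsUnique_continuousMap_lifts
    (⟨inclusion (slit_subset i σ), continuous_inclusion _⟩ : C(slit i σ, XB n)) ⟨_, he⟩ e rfl
  refine ⟨fun z => if h : z ∈ slit i σ then F ⟨z, h⟩ else e, ?_, by simp [he, h1], fun z hz => ?_⟩
  · rw [continuousOn_iff_continuous_domRestrict]
    convert F.continuous using 1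
    funext z
    simp [z.2]
  · simp only [hz, dif_pos]
    exact congrArg Subtype.val (congrFun h2 ⟨z, hz⟩)

lemma mem_slit_or {z : Fin n → ℂ} (hz : z ∈ XB n) (i : Fin n) : z ∈ slit i 1 ∨ z ∈ slit i (-1) := by
  by_contra h
  rw [not_or] at h
  have a : z = (z i).re • (Pi.single i 1 : Fin n → ℂ) ∧ 0 ≤ 1 * (z i).re :=
    by_contra fun h' => h.1 ⟨hz.2, h'⟩
  have b : z = (z i).re • (Pi.single i 1 : Fin n → ℂ) ∧ 0 ≤ -1 * (z i).re :=
    by_contra fun h' => h.2 ⟨hz.2, h'⟩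
  have c : (z i).re = 0 := by linarith [a.2, b.2]
  have d := a.1
  rw [c, zero_smul] at d
  exact absurd hz.1 (by simp [d, uu_zero])

lemma exists_section (hn : 2 ≤ n) {Y : Type*} [TopologicalSpace Y] [ConnectedSpace Y]
    {π : Y → XB n} (hπ : IsCoveringMap π) :
    ∃ s : XB n → Y, Continuous s ∧ (∀ x, π (s x) = x) ∧ ∀ y, s (π y) = y := by
  classical
  let i : Fin n := ⟨0, by omega⟩
  obtain ⟨a, ha⟩ := (preconn_inter hn i).nonempty
  obtain ⟨e, he⟩ : ∃ e, (π e).1 = a := by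
    obtain ⟨e⟩ := (inferInstance : Nonempty Y)
    rcases mem_slit_or (π e).2 i with h | h
    · obtain ⟨F, -, -, hF⟩ := lift_slit hπ i 1 (by simp) e h
      exact ⟨_, hF a ha.1⟩
    · obtain ⟨F, -, -, hF⟩ := lift_slit hπ i (-1) (by simp) e h
      exact ⟨_, hF a ha.2⟩
  subst he
  obtain ⟨F, F1, F2, F3⟩ := lift_slit hπ i 1 (by simp) e ha.1
  obtain ⟨G, G1, G2, G3⟩ := lift_slit hπ i (-1) (by simp) e ha.2
  have hFG : EqOn F G (slit i 1 ∩ slit i (-1)) :=
    hπ.eqOn_of_comp_eqOn (preconn_inter hn i).isPreconnected (F1.mono inter_subset_left)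
      (G1.mono inter_subset_right)
      (fun z hz => Subtype.ext ((F3 z hz.1).trans (G3 z hz.2).symm)) ha (F2.trans G2.symm)
  let S : (Fin n → ℂ) → Y := fun z => if z ∈ slit i 1 then F z else G z
  have S1 : EqOn S F (slit i 1) := fun z hz => if_pos hz
  have S2 : EqOn S G (slit i (-1)) := fun z hz => by
    by_cases h : z ∈ slit i 1
    · exact (if_pos h).trans (hFG ⟨h, hz⟩)
    · exact if_neg h
  have Sc : ContinuousOn S (XB n) := fun z hz => by
    rcases mem_slit_or hz i with h | h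
    · exact ((F1.congr S1).continuousAt ((isOpen_slit i 1).mem_nhds h)).continuousWithinAt
    · exact ((G1.congr S2).continuousAt ((isOpen_slit i (-1)).mem_nhds h)).continuousWithinAt
  have hc : Continuous fun x : XB n => S x.1 := Sc.domRestrict
  have hs : ∀ x : XB n, π (S x.1) = x := fun x => by
    apply Subtype.ext
    rcases mem_slit_or x.2 i with h | h
    · rw [S1 h, F3 _ h]
    · rw [S2 h, G3 _ h]
  refine ⟨fun x => S x.1, hc, hs, ?_⟩
  have := hπ.eq_of_comp_eq (g₁ := fun y => S (π y).1) (g₂ := id) (hc.comp hπ.continuous)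
    continuous_id (funext fun y => hs _) e ((S1 ha.1).trans F2)
  exact congrFun this

theorem no_cover (hn : 2 ≤ n) (π : {z : Fin n → ℂ | uu z < 1} → XB n) : ¬ IsCoveringMap π := by
  intro hπ
  have : ConnectedSpace {z : Fin n → ℂ | uu z < 1} :=
    isConnected_iff_connectedSpace.1 (convex_B.isConnected ⟨0, by simp [uu_zero]⟩)
  obtain ⟨s, sc, s1, s2⟩ := exists_section hn hπ
  let i : Fin n := ⟨0, by omega⟩
  have pt : ∀ r : ℝ, 0 < r → r < 1 → ∃ x : XB n, uu x.1 = r := fun r h0 h1 => by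
    have : uu (√r • (Pi.single i 1 : Fin n → ℂ)) = r := by
      rw [uu_smul, uu_single, mul_one, Real.sq_sqrt h0.le]
    exact ⟨⟨_, this.symm ▸ h0, this.symm ▸ h1⟩, this⟩
  have hK : IsCompact {x : XB n | uu x.1 = 1 / 2} := by
    rw [Subtype.isCompact_iff]
    refine (isCompact_uu_le (1 / 2)).of_isClosed_subset ?_ ?_
    · convert isClosed_eq (cont_uu (n := n)) (continuous_const (y := (1 / 2 : ℝ))) using 1
      ext z
      constructor
      · rintro ⟨x, hx, rfl⟩; exact hx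
      · intro hz
        have hz' : uu z = 1 / 2 := hz
        exact ⟨⟨z, by rw [hz']; norm_num, by rw [hz']; norm_num⟩, hz, rfl⟩
    · rintro _ ⟨x, hx, rfl⟩; exact le_of_eq hx
  obtain ⟨x0, -, hx0⟩ := hK.exists_isMaxOn (f := fun x => uu (s x).1)
    (pt _ (by norm_num) (by norm_num)) (cont_uu.comp (continuous_subtype_val.comp sc)).continuousOn
  set ρ := uu (s x0).1 with hρ
  have hC : IsCompact {w : {z : Fin n → ℂ | uu z < 1} | uu w.1 ≤ ρ} := by
    rw [Subtype.isCompact_iff]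
    convert isCompact_uu_le (n := n) ρ using 1
    ext z
    constructor
    · rintro ⟨x, hx, rfl⟩; exact hx
    · intro hz
      have h1 : uu z ≤ uu (s x0).1 := hz
      have h2 : uu (s x0).1 < 1 := (s x0).2
      exact ⟨⟨z, show uu z < 1 from h1.trans_lt h2⟩, hz, rfl⟩
  have cπ : Continuous fun w => uu (π w).1 :=
    cont_uu.comp (continuous_subtype_val.comp hπ.continuous)
  obtain ⟨w1, -, hw1⟩ := hC.exists_isMinOn ⟨s x0, show uu (s x0).1 ≤ ρ from le_rfl⟩ cπ.continuousOn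
  obtain ⟨w2, -, hw2⟩ := hC.exists_isMaxOn ⟨s x0, show uu (s x0).1 ≤ ρ from le_rfl⟩ cπ.continuousOn
  obtain ⟨x1, hx1⟩ := pt (uu (π w1).1 / 2) (by linarith [(π w1).2.1]) (by linarith [(π w1).2.2])
  obtain ⟨x2, hx2⟩ := pt ((uu (π w2).1 + 1) / 2) (by linarith [(π w2).2.1])
    (by linarith [(π w2).2.2])
  have hA : IsPreconnected {w : {z : Fin n → ℂ | uu z < 1} | ρ < uu w.1} := by
    rw [← IsInducing.subtypeVal.isPreconnected_image]
    convert preconn_annulus (n := n) (by omega) (uu_nonneg (s x0).1) (b := 1) using 1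
    ext z
    constructor
    · rintro ⟨x, hx, rfl⟩; exact ⟨hx, x.2⟩
    · intro hz
      exact ⟨⟨z, hz.2⟩, hz.1, rfl⟩
  have m1 : ρ < uu (s x1).1 := by
    by_contra h
    have : uu (π w1).1 ≤ uu (π (s x1)).1 := hw1 (not_lt.1 h)
    rw [s1, hx1] at this
    linarith [(π w1).2.1]
  have m2 : ρ < uu (s x2).1 := by
    by_contra h
    have : uu (π (s x2)).1 ≤ uu (π w2).1 := hw2 (not_lt.1 h)
    rw [s1, hx2] at this
    linarith [(π w2).2.2]
  obtain ⟨w, hw, hw'⟩ := hA.intermediate_value m1 m2 cπ.continuousOn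
    (show (1 / 2 : ℝ) ∈ Icc (uu (π (s x1)).1) (uu (π (s x2)).1) by
      rw [s1, s1, hx1, hx2]
      constructor <;> linarith [(π w1).2.2, (π w2).2.1])
  have : uu (s (π w)).1 ≤ ρ := hx0 (show π w ∈ {x : XB n | uu x.1 = 1 / 2} from hw')
  rw [s2] at this
  exact absurd hw (not_lt.2 this)

end Pool.Agent.P.MP_e5c6eb_gt
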